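import Pool.Agent.U79.GZ.Stm3
import Pool.Agent.U796.GZ.BOX

/-!
# Project GZ, package BOXK (helper943): the count of the matrices with a kernel of `2 ^ t` elements

Adaptation of `Pool/Agent/U796/GZ/BOX.lean` (helper796): the kernel has as many elements as the block
system has solutions (`kn_eq`).
-/

set_option autoImplicit false
set_option linter.unusedVariables false

open scoped Classical

namespace Pool.Agent.U943.GZ

open Finset hiding ext
open Pool.Agent.U79.GZ
open Pool.Agent.U796.GZ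
open Pool.Agent.U79.GY (Cfg Ok Hc Sp s4)
open Pool.Agent.Y703.CQ (nr sg prs HB S_EQ ext)
open Pool.Agent.U439.GD (Lb lb nr_self sum_un HB_sub ez0 ez0_coe)
open Pool.Agent.U79.MO (SolA)
open Pool.Agent.U79.GD (glue glue_left glue_right)
open Pool.Agent.U56.GY (nr_rec s4_eq cor ext_sum sum_f)

section one
variable {G : Cfg} {ι : Type} [Fintype ι] [LinearOrder ι] {J1 : Finset ι} {S₀ : Finset ℕ}
  {p P0 : ι → ℕ} {s : ι → ℕ} {Z : Finset ℤ} {γ : ℕ → ℕ → ZMod 2} (f : ℕ → ZMod 2)

/-- the kernel has as many elements as the block system has solutions -/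
theorem kn_eq (hp : Function.Injective p) (hpr : ∀ i, (p i).Prime ∧ p i ≠ 2)
    (hd : ∀ i, p i ∉ S₀) (hJ : ∀ i, Hc G (p i) ↔ i ∈ J1) (hs : ∀ i, p i % 4 = s i)
    (hg1 : ∀ u ∈ S₀, Hc G u → ∀ l ∈ J1, γ u (p l) = γ u (P0 l))
    (hg2 : ∀ k ∈ J1, ∀ u ∈ S₀, Hc G u → γ (p k) u = γ (P0 k) u)
    (hg3 : ∀ k ∈ J1, ∀ l ∈ J1, γ (p k) (p l) = γ (P0 k) (P0 l)) :
    Kn G γ f (S₀ ∪ univ.image p) = ns (univ.filter fun u : S₀ => Hc G (u : ℕ)) J1
      (fun u v : S₀ => nr u v + gs G γ u v) (fun (u : S₀) l => nr u (p l) + gl J1 P0 γ u l)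
      (fun k (u : S₀) => nr (p k) u + gs G γ (P0 k) u)
      (fun k l => ext (fun e : prs J1 => nr (p e.1.1) (p e.1.2)) k l + (cor J1 s k l + gl J1 P0 γ (P0 k) l))
      (fun u : S₀ => f u + gt G S₀ J1 P0 γ u) (fun k => f (p k) + gt G S₀ J1 P0 γ (P0 k)) := by
  have hsup : ∀ (c : S₀ → ZMod 2) (d : ι → ZMod 2),
      (∀ u, u ∉ univ.filter (fun u : S₀ => Hc G (u : ℕ)) → c u = 0) → (∀ l, l ∉ J1 → d l = 0) →
      ∀ q, ¬ (q ∈ S₀ ∪ univ.image p ∧ Hc G q) → glue S₀ p c d q = 0 := by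
    intro c d hc0 hd0 q hq
    by_cases h1 : q ∈ S₀
    · rw [show glue S₀ p c d q = c ⟨q, h1⟩ from glue_left c d ⟨q, h1⟩]
      exact hc0 _ fun hu => hq ⟨Finset.mem_union_left _ h1, (Finset.mem_filter.1 hu).2⟩
    · by_cases h2 : ∃ l, p l = q
      · obtain ⟨l, rfl⟩ := h2
        rw [glue_right hp hd]
        exact hd0 l fun hl => hq ⟨Finset.mem_union_right _
          (Finset.mem_image_of_mem _ (Finset.mem_univ _)), (hJ l).2 hl⟩
      · unfold glue
        rw [dif_neg h1, dif_neg h2]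
  have hinj : Function.Injective fun z : (S₀ → ZMod 2) × (ι → ZMod 2) => glue S₀ p z.1 z.2 := by
    rintro ⟨c, d⟩ ⟨c', d'⟩ h
    refine Prod.ext (funext fun u => ?_) (funext fun l => ?_)
    · have := congrFun h u
      simp only [glue_left] at this
      exact this
    · have := congrFun h (p l)
      simp only [glue_right hp hd] at this
      exact this
  unfold Kn ns
  rw [← Set.ncard_coe_finset, ← Set.ncard_image_of_injective _ hinj]
  congr 1
  ext x
  simp only [Set.mem_ofPred_eq, Set.mem_image, Finset.coe_filter, Finset.mem_univ, true_and]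
  constructor
  · rintro ⟨hx0, hx⟩
    have h1 := (sol_iff f hp hpr hd hJ hs hg1 hg2 hg3 x hx0).1 hx
    refine ⟨(fun u => x u, fun l => x (p l)), ⟨fun u hu => hx0 _ fun h' =>
      hu (Finset.mem_filter.2 ⟨Finset.mem_univ _, h'.2⟩), fun l hl => hx0 _ fun h' =>
      hl ((hJ l).1 h'.2), h1.1, h1.2⟩, ?_⟩
    funext q
    by_cases h2 : q ∈ S₀
    · exact glue_left _ _ ⟨q, h2⟩
    · by_cases h3 : ∃ l, p l = q
      · obtain ⟨l, rfl⟩ := h3
        show glue S₀ p _ _ (p l) = _
        rw [glue_right hp hd]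
      · have h4 : x q = 0 := hx0 q fun h' => by
          rcases Finset.mem_union.1 h'.1 with h5 | h5
          · exact h2 h5
          · obtain ⟨l, -, hl⟩ := Finset.mem_image.1 h5
            exact h3 ⟨l, hl⟩
        rw [h4]
        show glue S₀ p _ _ q = 0
        unfold glue
        rw [dif_neg h2, dif_neg h3]
  · rintro ⟨⟨c, d⟩, ⟨hc0, hd0, h1, h2⟩, rfl⟩
    refine ⟨hsup c d hc0 hd0, ?_⟩
    rw [sol_iff f hp hpr hd hJ hs hg1 hg2 hg3 _ (hsup c d hc0 hd0)]
    simp only [glue_left, glue_right hp hd]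
    exact ⟨h1, h2⟩

end one

/-- **The count in a box.** -/
theorem t_BOXK : S_BOXK := by
  intro hEQ hLA G γ Z f t K ι _ _ J1 C X κ S₀ ρ hOk hGa hκ hCX hHB hS₀ hC hdis hne
  set cc : ℝ := ek t K S₀.card J1.card G.Q (J1.filter fun i => ρ i % 4 = 3).card with hcc
  set R : ℝ := 2 ^ (prs J1).card * (κ * ∏ j, (X j : ℝ)) with hR
  have hR0 : 0 ≤ R := mul_nonneg (by positivity)
    (mul_nonneg hκ (Finset.prod_nonneg fun j _ => by positivity))
  -- facts on tuples
  have hinj : ∀ p ∈ Fintype.piFinset C, Function.Injective p := by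
    intro p hp i j hij
    rw [Fintype.mem_piFinset] at hp
    by_contra hne
    have h1 := Finset.disjoint_left.1 (hdis i j hne) (hp i)
    rw [hij] at h1
    exact h1 (hp j)
  have hJ : ∀ p ∈ Fintype.piFinset C, ∀ i, Hc G (p i) ↔ i ∈ J1 := by
    intro p hp i
    rw [Fintype.mem_piFinset] at hp
    exact (hC i _ (hp i)).2.2.2.1.symm
  have hQ : ∀ p ∈ Fintype.piFinset C, ∀ i, p i % G.Q = ρ i := by
    intro p hp i
    rw [Fintype.mem_piFinset] at hp
    exact (hC i _ (hp i)).2.2.2.2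
  have h4Q : 4 ∣ G.Q := (by norm_num : (4 : ℕ) ∣ 8).trans hOk.q8
  have hs4 : ∀ p ∈ Fintype.piFinset C, ∀ i, p i % 4 = ρ i % 4 := by
    intro p hp i
    rw [← hQ p hp i, Nat.mod_mod_of_dvd _ h4Q]
  have hd : ∀ p ∈ Fintype.piFinset C, ∀ i, p i ∉ S₀ := by
    intro p hp i
    rw [Fintype.mem_piFinset] at hp
    exact (hC i _ (hp i)).2.2.1
  have hpr : ∀ p ∈ Fintype.piFinset C, ∀ i, (p i).Prime ∧ p i ≠ 2 := by
    intro p hp i
    rw [Fintype.mem_piFinset] at hp
    exact ⟨(hC i _ (hp i)).1, (hC i _ (hp i)).2.1⟩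
  have hSp : ∀ p ∈ Fintype.piFinset C, ∀ k ∈ J1, Sp G (p k) := fun p hp k hk =>
    ⟨(hpr p hp k).1, (hJ p hp k).2 hk⟩
  by_cases hem : Fintype.piFinset C = ∅
  · rw [hem]
    simp only [Finset.filter_empty, Finset.card_empty, Nat.cast_zero, mul_zero, sub_zero, abs_zero,
      zero_add]
    have : 0 ≤ κ * ∏ j, (X j : ℝ) := mul_nonneg hκ (Finset.prod_nonneg fun j _ => by positivity)
    positivity
  obtain ⟨P0, hP0⟩ := Finset.nonempty_iff_ne_empty.2 hem
  have hres : ∀ p ∈ Fintype.piFinset C, ∀ k, p k % G.Q = P0 k % G.Q := fun p hp k => by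
    rw [hQ p hp, hQ P0 hP0]
  have hz : ∀ p ∈ Fintype.piFinset C, ∀ i ∈ J1, ∀ z ∈ Z, nz (p i) z = nz (P0 i) z :=
    fun p hp i hi z hzZ => hGa.perz z hzZ _ _ (hSp p hp i hi) (hSp P0 hP0 i hi) (hres p hp i)
  have hg1 : ∀ p ∈ Fintype.piFinset C, ∀ u ∈ S₀, Hc G u → ∀ l ∈ J1, γ u (p l) = γ u (P0 l) :=
    fun p hp u hu hu1 l hl => hGa.per _ _ _ _ ⟨(hS₀ u hu).1, hu1⟩ ⟨(hS₀ u hu).1, hu1⟩ (hSp p hp l hl)
      (hSp P0 hP0 l hl) rfl (hres p hp l)
  have hg2 : ∀ p ∈ Fintype.piFinset C, ∀ k ∈ J1, ∀ u ∈ S₀, Hc G u → γ (p k) u = γ (P0 k) u :=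
    fun p hp k hk u hu hu1 => hGa.per _ _ _ _ (hSp p hp k hk) (hSp P0 hP0 k hk) ⟨(hS₀ u hu).1, hu1⟩
      ⟨(hS₀ u hu).1, hu1⟩ (hres p hp k) rfl
  have hg3 : ∀ p ∈ Fintype.piFinset C, ∀ k ∈ J1, ∀ l ∈ J1, γ (p k) (p l) = γ (P0 k) (P0 l) :=
    fun p hp k hk l hl => hGa.per _ _ _ _ (hSp p hp k hk) (hSp P0 hP0 k hk) (hSp p hp l hl)
      (hSp P0 hP0 l hl) (hres p hp k) (hres p hp l)
  have hsP : ∀ p ∈ Fintype.piFinset C, ∀ i, s4 (p i) = s4 (P0 i) := by
    intro p hp i
    unfold s4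
    rw [hs4 p hp, hs4 P0 hP0]
  -- the part with given labels
  have h1 : ∀ β : ι → Lb S₀, LN G Z S₀ J1 P0 β →
      |(((Fintype.piFinset C).filter fun p => (fun i => lb f S₀ (p i)) = β ∧
          Kn G γ f (S₀ ∪ univ.image p) = 2 ^ t).card : ℝ) -
        et t * (((Fintype.piFinset C).filter fun p => (fun i => lb f S₀ (p i)) = β).card : ℝ)| ≤
      cc * (((Fintype.piFinset C).filter fun p => (fun i => lb f S₀ (p i)) = β).card : ℝ) + R := by
    intro β hβ
    by_cases hemp : ((Fintype.piFinset C).filter fun p => (fun i => lb f S₀ (p i)) = β) = ∅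
    · have he2 : ((Fintype.piFinset C).filter fun p => (fun i => lb f S₀ (p i)) = β ∧
          Kn G γ f (S₀ ∪ univ.image p) = 2 ^ t) = ∅ := by
        rw [← Finset.filter_filter, hemp, Finset.filter_empty]
      rw [he2, hemp]
      simpa using hR0
    obtain ⟨p₀, hp₀⟩ := Finset.nonempty_iff_ne_empty.2 hemp
    rw [Finset.mem_filter] at hp₀
    obtain ⟨hp₀, hp₀β⟩ := hp₀
    set C' : ι → Finset ℕ := fun i => (C i).filter fun q => lb f S₀ q = β i with hC'
    have hpi : (Fintype.piFinset C).filter (fun p => (fun i => lb f S₀ (p i)) = β) =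
        Fintype.piFinset C' := by
      ext p
      simp only [Finset.mem_filter, Fintype.mem_piFinset, hC']
      constructor
      · rintro ⟨h2, h3⟩ i
        exact ⟨h2 i, congrFun h3 i⟩
      · intro h2
        exact ⟨fun i => (h2 i).1, funext fun i => (h2 i).2⟩
    have hred : ∀ v : S₀ → ZMod 2, (∀ u, u ∉ (univ.filter fun u : S₀ => Hc G (u : ℕ)) →
        v u = 0) → ∀ g : S₀ → ZMod 2,
        ∑ u ∈ univ.filter (fun u : S₀ => Hc G (u : ℕ)), v u * g u = ∑ u, v u * g u := by
      intro v hv g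
      rw [Finset.sum_filter]
      refine Finset.sum_congr rfl fun v' _ => ?_
      split_ifs with h8
      · rfl
      · rw [hv v' fun hv => h8 (Finset.mem_filter.1 hv).2, zero_mul]
    have hsup : ∀ w : S₀ → ZMod 2, (∀ u, u ∉ (univ.filter fun u : S₀ => Hc G (u : ℕ)) → w u = 0) →
        ∀ u : S₀, w u ≠ 0 → Hc G (u : ℕ) := by
      intro w hw0 u hu
      by_contra h8
      exact hu (hw0 u fun hu' => h8 (Finset.mem_filter.1 hu').2)
    have hT : ∀ w : S₀ → ZMod 2, (∀ u, u ∉ (univ.filter fun u : S₀ => Hc G (u : ℕ)) → w u = 0) →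
        ∀ u ∈ (univ.filter fun u : S₀ => w u ≠ 0).image (fun u : S₀ => (u : ℕ)), Sp G u := by
      intro w hw0 u hu
      rw [Finset.mem_image] at hu
      obtain ⟨v, hv, rfl⟩ := hu
      exact ⟨(hS₀ v v.2).1, hsup w hw0 v (Finset.mem_filter.1 hv).2⟩
    have hHy : Hy (univ.filter fun u : S₀ => Hc G (u : ℕ)) J1
        (fun (u : S₀) l => (β l).1 u + gl J1 P0 γ u l) (fun k (u : S₀) => (β k).2.1 u + gs G γ (P0 k) u)
        (fun k l => cor J1 (fun i => ρ i % 4) k l + gl J1 P0 γ (P0 k) l) G.Q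
        (J1.filter fun i => ρ i % 4 = 3).card := by
      refine ⟨hne, ?_, ?_, ?_⟩
      · intro w hw0 hw
        obtain ⟨z, hzZ, hz1⟩ := hGa.row _ (hT w hw0)
        obtain ⟨u, hu⟩ := hw
        obtain ⟨k, hk, hk2⟩ := hβ w ⟨u, hsup w hw0 u hu, hu⟩ z hzZ
        refine ⟨k, hk, ?_⟩
        rw [hred w hw0, ← hz1 (P0 k) (hSp P0 hP0 k hk),
          sum_supp w (fun u => γ u (P0 k) + s4 (P0 k) * s4 u), ← Finset.sum_add_distrib] at hk2
        intro h0
        apply hk2
        rw [← h0]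
        refine Finset.sum_congr rfl fun u' _ => ?_
        have h3 := congrFun hp₀β k
        have h4 : nr u' (p₀ k) = nr (p₀ k) u' + s4 u' * s4 (p₀ k) :=
          nr_rec (hS₀ u' u'.2).1 (hS₀ u' u'.2).2 (hpr p₀ hp₀ k).1 (hpr p₀ hp₀ k).2
            (fun h5 => hd p₀ hp₀ k (h5 ▸ u'.2))
        have h5 : (β k).1 u' = nr u' (p₀ k) := by rw [← h3]; rfl
        have h6 : (β k).2.1 u' = nr (p₀ k) u' := by rw [← h3]; rfl
        have h7 : gl J1 P0 γ u' k = γ u' (P0 k) := by
          unfold gl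
          rw [if_pos hk]
        show w u' * (β k).2.1 u' + w u' * (γ (↑u') (P0 k) + s4 (P0 k) * s4 ↑u') =
          w u' * ((β k).1 u' + gl J1 P0 γ u' k)
        rw [h5, h6, h7, h4, hsP p₀ hp₀]
        ring
      · intro w hw0 hw
        obtain ⟨z, hzZ, hz1⟩ := hGa.col _ (hT w hw0)
        obtain ⟨u, hu⟩ := hw
        obtain ⟨k, hk, hk2⟩ := hβ w ⟨u, hsup w hw0 u hu, hu⟩ z hzZ
        refine ⟨k, hk, ?_⟩
        rw [hred w hw0, ← hz1 (P0 k) (hSp P0 hP0 k hk),
          sum_supp w (fun u => γ (P0 k) u), ← Finset.sum_add_distrib] at hk2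
        intro h0
        apply hk2
        rw [← h0]
        refine Finset.sum_congr rfl fun u' _ => ?_
        show w u' * (β k).2.1 u' + w u' * γ (P0 k) ↑u' = w u' * ((β k).2.1 u' + gs G γ (P0 k) u')
        by_cases h8 : w u' = 0
        · rw [h8]; ring
        · have h7 : gs G γ (P0 k) u' = γ (P0 k) u' := by
            unfold gs
            rw [if_pos (hsup w hw0 u' h8)]
          rw [h7]
          ring
      · refine ker_card J1 G.Q ρ (fun k => s4 (P0 k))
          (fun k l => s4 (P0 k) * s4 (P0 l) + γ (P0 k) (P0 l) + γ (P0 l) (P0 k))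
          (fun k l => cor J1 (fun i => ρ i % 4) k l + gl J1 P0 γ (P0 k) l) ?_ ?_ ?_ ?_ ?_
        · intro l _
          rw [← hQ P0 hP0 l]
          exact Nat.mod_lt _ hOk.q0
        · intro k hk l hl l' hl' hll
          have e1 : P0 l % G.Q = P0 l' % G.Q := by rw [hQ P0 hP0, hQ P0 hP0, hll]
          have e2 : s4 (P0 l) = s4 (P0 l') := by
            unfold s4
            rw [hs4 P0 hP0, hs4 P0 hP0, hll]
          have e3 := hGa.per _ _ _ _ (hSp P0 hP0 k hk) (hSp P0 hP0 k hk) (hSp P0 hP0 l hl)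
            (hSp P0 hP0 l' hl') rfl e1
          have e4 := hGa.per _ _ _ _ (hSp P0 hP0 l hl) (hSp P0 hP0 l' hl') (hSp P0 hP0 k hk)
            (hSp P0 hP0 k hk) e1 rfl
          show _ + _ + _ = _ + _ + _
          rw [e2, e3, e4]
        · intro k _
          show _ + _ + _ = _
          rw [add_assoc, two0, add_zero, sq_self]
        · intro k hk l hl hlk
          have e1 : gl J1 P0 γ (P0 k) l = γ (P0 k) (P0 l) := by unfold gl; rw [if_pos hl]
          have e2 : gl J1 P0 γ (P0 l) k = γ (P0 l) (P0 k) := by unfold gl; rw [if_pos hk]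
          have e3 : ∀ i, s4 (ρ i % 4) = s4 (P0 i) := by
            intro i
            unfold s4
            rw [← hs4 P0 hP0 i, Nat.mod_mod]
          have e4 : cor J1 (fun i => ρ i % 4) k l + cor J1 (fun i => ρ i % 4) l k =
              s4 (P0 k) * s4 (P0 l) := by
            unfold cor
            rcases lt_or_gt_of_ne hlk with h | h
            · have h5 : (k, l) ∉ prs J1 := by
                unfold prs
                rw [Finset.mem_filter]
                rintro ⟨-, -, -, h6⟩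
                exact lt_asymm h (h6 hl)
              have h6 : (l, k) ∈ prs J1 := by
                unfold prs
                exact Finset.mem_filter.2 ⟨Finset.mem_univ _, hl, hlk.symm, fun _ => h⟩
              rw [if_neg (by rintro (h7 | h7); exacts [h5 h7, hlk h7]), if_pos (Or.inl h6), add_zero,
                e3, e3]
            · have h5 : (l, k) ∉ prs J1 := by
                unfold prs
                rw [Finset.mem_filter]
                rintro ⟨-, -, -, h6⟩
                exact lt_asymm h (h6 hk)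
              have h6 : (k, l) ∈ prs J1 := by
                unfold prs
                exact Finset.mem_filter.2 ⟨Finset.mem_univ _, hk, hlk, fun _ => h⟩
              rw [if_pos (Or.inl h6), if_neg (by rintro (h7 | h7); exacts [h5 h7, hlk h7.symm]), zero_add,
                e3, e3, mul_comm]
          show (_ + _) + (_ + _) = _
          rw [e1, e2, ← e4]
          ring
        · intro k _ hk3
          show s4 (P0 k) = 1
          unfold s4
          rw [hs4 P0 hP0, if_pos hk3]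
    have h2 := hLA t K G.Q (J1.filter fun i => ρ i % 4 = 3).card S₀ ι
      (univ.filter fun u : S₀ => Hc G (u : ℕ)) J1
      (fun u v : S₀ => nr u v + gs G γ u v) (fun (u : S₀) l => (β l).1 u + gl J1 P0 γ u l)
      (fun k (u : S₀) => (β k).2.1 u + gs G γ (P0 k) u)
      (fun k l => cor J1 (fun i => ρ i % 4) k l + gl J1 P0 γ (P0 k) l)
      (fun u : S₀ => f u + gt G S₀ J1 P0 γ u) (fun k => (β k).2.2 + gt G S₀ J1 P0 γ (P0 k)) hHy
    rw [Fintype.card_coe] at h2
    set Q : (prs J1 → ZMod 2) → Prop := fun α => ns (univ.filter fun u : S₀ => Hc G (u : ℕ)) J1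
      (fun u v : S₀ => nr u v + gs G γ u v) (fun (u : S₀) l => (β l).1 u + gl J1 P0 γ u l)
      (fun k (u : S₀) => (β k).2.1 u + gs G γ (P0 k) u)
      (fun k l => ext α k l + (cor J1 (fun i => ρ i % 4) k l + gl J1 P0 γ (P0 k) l))
      (fun u : S₀ => f u + gt G S₀ J1 P0 γ u) (fun k => (β k).2.2 + gt G S₀ J1 P0 γ (P0 k)) = 2 ^ t with hQd
    have h3 := hEQ ι J1 C' X κ hκ
      (fun i => (Finset.card_le_card (Finset.filter_subset _ _)).trans (hCX i))
      (HB_sub hHB fun i q => lb f S₀ q = β i) Q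
    have h4 : ((Fintype.piFinset C).filter fun p => (fun i => lb f S₀ (p i)) = β ∧
        Kn G γ f (S₀ ∪ univ.image p) = 2 ^ t) = ((Fintype.piFinset C').filter fun p =>
          Q fun e => nr (p e.1.1) (p e.1.2)) := by
      rw [← hpi, Finset.filter_filter]
      refine Finset.filter_congr fun p hp => ?_
      refine and_congr_right fun hl => ?_
      rw [kn_eq f (hinj p hp) (hpr p hp) (hd p hp) (hJ p hp) (hs4 p hp) (hg1 p hp) (hg2 p hp) (hg3 p hp)]
      subst hl
      exact Iff.rfl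
    have h5 : (((Fintype.piFinset C').card : ℕ) : ℝ) = ∏ j, ((C' j).card : ℝ) := by
      rw [Fintype.card_piFinset]
      push_cast
      rfl
    rw [h4, hpi, h5]
    have h2' : |((univ.filter Q).card : ℝ) / 2 ^ (prs J1).card - et t| ≤ cc := h2
    set n : ℝ := (((Fintype.piFinset C').filter fun p =>
          Q fun e => nr (p e.1.1) (p e.1.2)).card : ℝ) with hn
    set q : ℝ := ((univ.filter Q).card : ℝ) / 2 ^ (prs J1).card with hq
    set P : ℝ := ∏ j, ((C' j).card : ℝ) with hP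
    have hP0' : 0 ≤ P := Finset.prod_nonneg fun j _ => by positivity
    have h6 : |n - et t * P| ≤ |n - q * P| + |q - et t| * P := by
      have h7 : n - et t * P = (n - q * P) + (q - et t) * P := by ring
      have h8 : |(q - et t) * P| = |q - et t| * P := by rw [abs_mul, abs_of_nonneg hP0']
      rw [h7, ← h8]
      exact abs_add_le _ _
    have h7 : |q - et t| * P ≤ cc * P := mul_le_mul_of_nonneg_right h2' hP0'
    have h8 : |n - q * P| ≤ R := by
      rw [hn, hq, hR]
      convert h3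
    linarith
  -- sum over the labels
  set LL := univ.filter (fun β : ι → Lb S₀ => LN G Z S₀ J1 P0 β) with hLL
  have hfib : ∀ T : (ι → ℕ) → Prop,
      (((Fintype.piFinset C).filter fun p => Nd G Z S₀ (univ.image p) ∧ T p).card : ℝ) =
      ∑ β ∈ LL, (((Fintype.piFinset C).filter fun p =>
        (fun i => lb f S₀ (p i)) = β ∧ T p).card : ℝ) := by
    intro T
    rw [Finset.card_eq_sum_card_fiberwise (f := fun (p : ι → ℕ) (i : ι) => lb f S₀ (p i))
      (t := LL) (by
        intro p hp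
        rw [Finset.mem_coe, Finset.mem_filter] at hp
        rw [Finset.mem_coe, hLL, Finset.mem_filter]
        exact ⟨Finset.mem_univ _, (nd_iff f (hJ p hp.1) (hz p hp.1)).1 hp.2.1⟩)]
    push_cast
    refine Finset.sum_congr rfl fun β hβ => ?_
    rw [hLL, Finset.mem_filter] at hβ
    congr 2
    ext p
    simp only [Finset.mem_filter]
    constructor
    · rintro ⟨⟨h3, h4, h4'⟩, h5⟩
      exact ⟨h3, h5, h4'⟩
    · rintro ⟨h3, h4, h5⟩
      refine ⟨⟨h3, ?_, h5⟩, h4⟩
      rw [nd_iff f (hJ p h3) (hz p h3), h4]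
      exact hβ.2
  have hf1 : (((Fintype.piFinset C).filter fun p => Nd G Z S₀ (univ.image p) ∧
      Kn G γ f (S₀ ∪ univ.image p) = 2 ^ t).card : ℝ) =
      ∑ β ∈ LL, (((Fintype.piFinset C).filter fun p =>
        (fun i => lb f S₀ (p i)) = β ∧ Kn G γ f (S₀ ∪ univ.image p) = 2 ^ t).card : ℝ) := by
    have := hfib fun p => Kn G γ f (S₀ ∪ univ.image p) = 2 ^ t
    convert this
  have hf2 := hfib fun _ => True
  simp only [and_true] at hf2
  rw [hf1, hf2, Finset.mul_sum, ← Finset.sum_sub_distrib]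
  refine (Finset.abs_sum_le_sum_abs _ _).trans ?_
  refine (Finset.sum_le_sum fun β hβ => h1 β (Finset.mem_filter.1 hβ).2).trans ?_
  rw [Finset.sum_add_distrib, ← Finset.mul_sum, Finset.sum_const, nsmul_eq_mul]
  have h5 : ((LL.card : ℕ) : ℝ) ≤ 2 ^ ((2 * S₀.card + 1) * Fintype.card ι) := by
    have h6 : LL.card ≤ Fintype.card (ι → Lb S₀) := Finset.card_le_univ _
    rw [Fintype.card_fun, Fintype.card_prod, Fintype.card_prod, Fintype.card_fun, ZMod.card,
      Fintype.card_coe, ← pow_succ, ← pow_add, ← pow_mul] at h6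
    have h7 : (S₀.card + (S₀.card + 1)) * Fintype.card ι = (2 * S₀.card + 1) * Fintype.card ι := by
      ring
    rw [h7] at h6
    exact_mod_cast h6
  have h6 := mul_le_mul_of_nonneg_right h5 hR0
  rw [pow_add, mul_assoc]
  linarith


end Pool.Agent.U943.GZ
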